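import Pool.Agent.Lib.MP_ef3722_al.Final

set_option autoImplicit false

namespace Pool.Agent.Results.MP_ef3722_al.LatticePaths

open MvPolynomial Finset

/-- `m`-Dyck paths of order `n` as lists of steps, `true` = north, `false` = east -/
def IsDyck (m n : ℕ) (π : List Bool) : Prop :=
  π.count false = m * n ∧ π.count true = n ∧
    ∀ p q, π = p ++ q → p.count false ≤ m * p.count true

/-- the square `[i, i+1] × [k, k+1]` lies above the path -/
def Above (π : List Bool) (i k : ℕ) : Prop :=
  ∃ p q, π = p ++ false :: q ∧ p.count false = i ∧ p.count true ≤ k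

open Classical in
/-- squares above the path to the right of the square, in its row -/
noncomputable def arm (m n : ℕ) (π : List Bool) (i k : ℕ) : ℕ :=
  #{i' ∈ range (m * n) | i < i' ∧ Above π i' k}

open Classical in
/-- squares above the path below the square, in its column -/
noncomputable def leg (π : List Bool) (i k : ℕ) : ℕ := #{k' ∈ range k | Above π i k'}

open Classical in
/-- squares of the column `[i, i+1] × [0, n]` below the path and above the line `m y = x` -/
noncomputable def aCol (m n : ℕ) (π : List Bool) (i : ℕ) : ℕ :=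
  #{k ∈ range n | ¬ Above π i k ∧ i + 1 ≤ m * k}

open Classical in
/-- squares of the column above the path with `m l ≤ a ≤ m (l + 1)` -/
noncomputable def bCol (m n : ℕ) (π : List Bool) (i : ℕ) : ℕ :=
  #{k ∈ range n | Above π i k ∧ m * leg π i k ≤ arm m n π i k ∧
    arm m n π i k ≤ m * (leg π i k + 1)}

/-- the determinant of the columns `j, j + m, …`; `x r = X (0, r)`, `y r = X (1, r)` -/
noncomputable def detD (m n : ℕ) (π : List Bool) (j : ℕ) : MvPolynomial (Fin 2 × Fin n) ℂ :=
  (Matrix.of fun r k : Fin n => (X (0, r) : MvPolynomial (Fin 2 × Fin n) ℂ) ^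
    aCol m n π (j + m * k) * X (1, r) ^ bCol m n π (j + m * k)).det

/-- alternating polynomials for the diagonal action -/
def Alternating {n : ℕ} (f : MvPolynomial (Fin 2 × Fin n) ℂ) : Prop :=
  ∀ w : Equiv.Perm (Fin n),
    rename (fun p : Fin 2 × Fin n => (p.1, w p.2)) f = ((Equiv.Perm.sign w : ℤ) : ℂ) • f

/-- the path with east steps at the heights `h` -/
def path (h : ℕ → ℕ) : ℕ → List Bool
  | 0 => []
  | i + 1 => path h i ++ List.replicate (h i - (path h i).count true) true ++ [false]

theorem path_false (h : ℕ → ℕ) (N : ℕ) : (path h N).count false = N := by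
  induction N with
  | zero => rfl
  | succ N ih => simp [path, ih, List.count_replicate]

theorem split_true {l p q : List Bool} {c : ℕ} (h : l ++ List.replicate c true = p ++ false :: q) :
    ∃ q', l = p ++ false :: q' := by
  rcases List.append_eq_append_iff.1 h with ⟨a, -, e⟩ | ⟨a, rfl, e⟩
  · have : false ∈ List.replicate c true := by rw [e]; simp
    simp at this
  · cases a with
    | nil =>
      have : false ∈ List.replicate c true := by rw [List.nil_append] at e; rw [← e]; simp
      simp at this
    | cons x a =>
      obtain ⟨rfl, -⟩ := List.cons.inj e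
      exact ⟨a, rfl⟩

theorem path_spec (h : ℕ → ℕ) (N : ℕ) (hm : ∀ i i', i ≤ i' → i' < N → h i ≤ h i') :
    (∀ c, (∀ i < N, h i ≤ c) → (path h N).count true ≤ c) ∧
    (∀ p q, path h N = p ++ false :: q → p.count false < N ∧ p.count true = h (p.count false)) ∧
    ∀ i < N, ∃ p q, path h N = p ++ false :: q ∧ p.count false = i := by
  induction N with
  | zero => simp [path]
  | succ N ih =>
    obtain ⟨h1, h2, h3⟩ := ih fun i i' a b => hm i i' a (by omega)
    have h4 := h1 (h N) fun i hi => hm i N hi.le (by omega)
    refine ⟨fun c hc => ?_, fun p q e => ?_, fun i hi => ?_⟩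
    · have := hc N (by omega)
      simp [path]
      omega
    · rcases q.eq_nil_or_concat with rfl | ⟨q', x, rfl⟩
      · obtain rfl := List.append_cancel_right e
        simp [path_false, List.count_replicate]
        omega
      · rw [path, List.concat_eq_append, ← List.cons_append, ← List.append_assoc] at e
        obtain ⟨q'', e'⟩ := split_true (List.append_inj' e rfl).1
        exact (h2 p q'' e').imp_left fun a => by omega
    · rcases (Nat.lt_succ_iff.1 hi).eq_or_lt with rfl | hi
      · exact ⟨_, [], rfl, by simp [path_false, List.count_replicate]⟩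
      · obtain ⟨p, q, e, e'⟩ := h3 i hi
        exact ⟨p, _, by rw [path, e]; simp; rfl, e'⟩

theorem exists_path {m n : ℕ} (h : ℕ → ℕ) (hm : ∀ i i', i ≤ i' → i' < m * n → h i ≤ h i')
    (hb : ∀ i, i < m * n → i + 1 ≤ m * h i ∧ h i ≤ n) :
    ∃ π, IsDyck m n π ∧ ∀ i < m * n, ∀ k, Above π i k ↔ h i ≤ k := by
  obtain ⟨h1, h2, h3⟩ := path_spec h (m * n) hm
  have h4 := h1 n fun i hi => (hb i hi).2
  refine ⟨path h (m * n) ++ List.replicate (n - (path h (m * n)).count true) true,
    ⟨by simp [path_false, List.count_replicate], by simp; omega, fun p => ?_⟩, fun i hi k => ?_⟩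
  · induction p using List.reverseRecOn with
    | nil => simp
    | append_singleton p x ih =>
      intro q e
      rw [List.append_assoc] at e
      have := ih _ e
      cases x
      · obtain ⟨q', e'⟩ := split_true e
        obtain ⟨a, b⟩ := h2 p q' e'
        simpa [b] using (hb _ a).1
      · simp [Nat.mul_add]
        omega
  · constructor
    · rintro ⟨p, q, e, rfl, a⟩
      obtain ⟨q', e'⟩ := split_true e
      rwa [← (h2 p q' e').2]
    · intro a
      obtain ⟨p, q, e, rfl⟩ := h3 i hi
      exact ⟨p, _, by rw [e]; simp; rfl, rfl, (h2 p q e).2.le.trans a⟩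

open Pool.Agent.Lib.MP_ef3722_al in
theorem result (m n : ℕ) (hm : 1 ≤ m) :
    Ideal.span {F | ∃ π, IsDyck m n π ∧ F = ∏ j ∈ range m, detD m n π j} =
      Ideal.span {f : MvPolynomial (Fin 2 × Fin n) ℂ | Alternating f} ^ m := by
  classical
  have eI : Ideal.span {f : MvPolynomial (Fin 2 × Fin n) ℂ | Alternating f} = II n := by
    simp only [II, Alternating, smul_eq_C_mul]
  rw [eI]
  apply le_antisymm
  · refine Ideal.span_le.mpr ?_
    rintro _ ⟨π, -, rfl⟩
    have := Ideal.prod_mem_prod (s := range m) (I := fun _ => II n) (x := detD m n π)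
      (fun j _ => by
        have := Psi_Alt_mem_II (monomial (fs fun k : Fin n => aCol m n π (j + m * k))
          (monomial (fs fun k : Fin n => bCol m n π (j + m * k)) 1))
        rwa [← altm, Psi_altm] at this)
    rwa [prod_const, card_range] at this
  · rw [← JJ_eq hm]
    refine Ideal.span_mono ?_
    rintro _ ⟨h, h1, h2, rfl⟩
    obtain ⟨π, a1, a2⟩ := exists_path h h1 h2
    refine ⟨π, a1, ?_⟩
    rw [prod_range]
    refine prod_congr rfl fun j _ => ?_
    have lt : ∀ s : Fin n, j.val + m * s.val < m * n := fun s => by
      have := Nat.mul_le_mul_left m (Nat.succ_le_of_lt s.2)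
      have := j.2
      rw [Nat.mul_succ] at *
      omega
    have ea : ∀ s : Fin n, fa n m h j s = aCol m n π (j + m * s) := by
      intro s
      have b := h2 _ (lt s)
      have e : (j.val + m * s.val + m) / m = s + 1 := by
        rw [add_assoc, ← Nat.mul_succ, Nat.add_mul_div_left _ _ hm, Nat.div_eq_of_lt j.2, zero_add]
      rw [fa, e, aCol, ← Nat.card_Ico]
      congr 1
      ext k
      simp only [mem_Ico, mem_filter, mem_range, a2 _ (lt s), not_le]
      have := j.2
      constructor
      · rintro ⟨c1, c2⟩
        have := Nat.mul_le_mul_left m c1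
        rw [Nat.mul_succ] at this
        omega
      · rintro ⟨-, c1, c2⟩
        exact ⟨Nat.lt_of_mul_lt_mul_left (a := m) (by omega), c1⟩
    have eb : ∀ s : Fin n, fb n m h j s = bCol m n π (j + m * s) := by
      intro s
      rw [fb, bCol]
      congr 1
      refine filter_congr fun k _ => ?_
      rw [a2 _ (lt s)]
      refine and_congr_right fun c => ?_
      have e1 : leg π (j + m * s) k = k - h (j + m * s) := by
        rw [leg, ← Nat.card_Ico]
        congr 1
        ext k'
        simp only [mem_Ico, mem_filter, mem_range, a2 _ (lt s), and_comm]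
      have e2 : arm m n π (j + m * s) k =
          #{i' ∈ range (m * n) | h i' ≤ k} - (j + m * s + 1) := by
        rw [arm, ← card_range (j + m * s + 1), ← card_sdiff_of_subset fun i hi => by
          have := mem_range.1 hi
          have := lt s
          exact mem_filter.2 ⟨mem_range.2 (by omega), (h1 _ _ (by omega) (lt s)).trans c⟩]
        congr 1
        ext i
        simp only [mem_filter, mem_sdiff, mem_range, not_lt]
        constructor
        · rintro ⟨d1, d2, d3⟩
          exact ⟨⟨d1, (a2 i d1 k).1 d3⟩, d2⟩
        · rintro ⟨⟨d1, d3⟩, d2⟩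
          exact ⟨d1, d2, (a2 i d1 k).2 d3⟩
      rw [e1, e2]
    simp only [dt, detD, ea, eb]

end Pool.Agent.Results.MP_ef3722_al.LatticePaths
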